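import Mathlib
import Pool.Graph.R_seed8.W757.RD.Main
import Pool.Graph.R_seed8.W376.RQTRAP
import Pool.Agent.Helper38.AM.Att

/-! Chosen attracting cycles of a map of the sphere, and the points which they attract. -/

set_option autoImplicit false
set_option linter.unusedVariables false

open Topology Filter Metric Set MeasureTheory
open Pool.Agent.H790R3.RB (CV hF cr ND wr rt Ix yx yc sp HypTop Attd Sink pr hc)
open Pool.Agent.W757.RD
open scoped OnePoint

namespace Pool.Agent.Helper38.BD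

/-- `a k` are attracting periodic points of exact periods `n k`, in different cycles -/
def Cyc (f : OnePoint ℂ → OnePoint ℂ) (s : ℕ) (n : Fin s → ℕ) (a : Fin s → OnePoint ℂ) : Prop :=
  (∀ k, Sink f (n k) (a k)) ∧ ∀ k k' : Fin s, ∀ m : ℕ, f^[m] (a k) = a k' → k = k' ∧ n k ∣ m

/-- `z` is attracted by the cycle of one of the points `a k` -/
def To (f : OnePoint ℂ → OnePoint ℂ) (s : ℕ) (n : Fin s → ℕ) (a : Fin s → OnePoint ℂ)
    (z : OnePoint ℂ) : Prop :=
  ∃ (k : Fin s) (m : ℕ), Tendsto (fun j : ℕ => f^[n k * j] (f^[m] z)) atTop (𝓝 (a k))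

/-- every critical point is attracted by the cycles of the points `a k` -/
def AllTo (f : OnePoint ℂ → OnePoint ℂ) (s : ℕ) (n : Fin s → ℕ) (a : Fin s → OnePoint ℂ) :
    Prop :=
  ∀ c : OnePoint ℂ, (¬ ∃ U ∈ nhds c, Set.InjOn f U) → To f s n a c

variable {f g : OnePoint ℂ → OnePoint ℂ} {s : ℕ} {n : Fin s → ℕ} {a : Fin s → OnePoint ℂ}

theorem sink_nhds {p : ℕ} {b : OnePoint ℂ} (h : Sink f p b) :
    ∃ U ∈ 𝓝 b, ∀ w ∈ U, Tendsto (fun j : ℕ => f^[p * j] w) atTop (𝓝 b) := by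
  obtain ⟨-, -, U, hU, h⟩ := h
  refine ⟨U, hU, fun w hw => ?_⟩
  rw [tendsto_def]
  intro V hV
  filter_upwards [h V hV] with j hj
  exact hj w hw

theorem to_open (hf : Continuous f) (hc : Cyc f s n a) : IsOpen {z | To f s n a z} := by
  rw [isOpen_iff_mem_nhds]
  rintro z ⟨k, m, h⟩
  obtain ⟨U, hU, hUt⟩ := sink_nhds (hc.1 k)
  obtain ⟨j, hj⟩ := (h.eventually (eventually_mem_nhds_iff.2 hU)).exists
  rw [← Function.iterate_add_apply] at hj
  have h1 : (f^[n k * j + m]) ⁻¹' U ∈ 𝓝 z := (hf.iterate _).continuousAt hj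
  filter_upwards [h1] with w hw
  exact ⟨k, _, hUt _ hw⟩

theorem iter_semi (h : OnePoint ℂ ≃ₜ OnePoint ℂ) (hs : ∀ z, h (f z) = g (h z)) (N : ℕ)
    (z : OnePoint ℂ) : g^[N] (h z) = h (f^[N] z) := by
  induction N with
  | zero => rfl
  | succ N ih => rw [Function.iterate_succ_apply', Function.iterate_succ_apply', ih, hs]

theorem cyc_conj (h : OnePoint ℂ ≃ₜ OnePoint ℂ) (hs : ∀ z, h (f z) = g (h z))
    (hc : Cyc f s n a) : Cyc g s n (fun k => h (a k)) := by
  refine ⟨fun k => ?_, fun k k' m hm => ?_⟩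
  · exact Pool.Agent.H790R3.RB.ALL.sink h (fun z => (hs z).symm) (hc.1 k)
  · have h1 := iter_semi h hs m (a k)
    rw [h1] at hm
    exact hc.2 k k' m (h.injective hm)

theorem to_conj (h : OnePoint ℂ ≃ₜ OnePoint ℂ) (hs : ∀ z, h (f z) = g (h z)) {z : OnePoint ℂ}
    (hz : To f s n a z) : To g s n (fun k => h (a k)) (h z) := by
  obtain ⟨k, m, ht⟩ := hz
  refine ⟨k, m, ?_⟩
  have h1 : ∀ j : ℕ, g^[n k * j] (g^[m] (h z)) = h (f^[n k * j] (f^[m] z)) := fun j => by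
    rw [iter_semi h hs, iter_semi h hs]
  simp only [h1]
  exact (h.continuous.tendsto _).comp ht

theorem allTo_conj (h : OnePoint ℂ ≃ₜ OnePoint ℂ) (hs : ∀ z, h (f z) = g (h z))
    (hz : AllTo f s n a) : AllTo g s n (fun k => h (a k)) := by
  intro c hc
  have h1 := hz (h.symm c) (by
    rintro ⟨U, hU, hinj⟩
    apply hc
    refine ⟨h.symm ⁻¹' U, h.symm.continuous.continuousAt hU, ?_⟩
    intro x hx y hy hxy
    have e : ∀ w, f (h.symm w) = h.symm (g w) := by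
      intro w
      apply h.injective
      rw [hs, h.apply_symm_apply, h.apply_symm_apply]
    exact h.symm.injective (hinj hx hy (by rw [e, e, hxy])))
  have h2 := to_conj h hs h1
  rwa [h.apply_symm_apply] at h2

theorem minPer (hc : Cyc f s n a) (k : Fin s) : n k = Function.minimalPeriod f (a k) := by
  apply Nat.dvd_antisymm
  · exact (hc.2 k k _ (Function.iterate_minimalPeriod)).2
  · exact Function.IsPeriodicPt.minimalPeriod_dvd (hc.1 k).2.1

section marks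

variable {d : ℕ}

theorem mk_of_cyc (hd : 2 ≤ d) {u : Fin (2 * d) → ℂ} (hu : u ∈ U₀ d) {p : Fin s → ℂ}
    (hc : Cyc (sp (fam u)) s n (fun k => ((p k : ℂ) : OnePoint ℂ))) : Mk u s n p := by
  have hG : Pool.Agent.W586.RESMK.Good (sp (fam u)) s p := by
    refine ⟨fun k => ?_, fun k k' m hm => (hc.2 k k' m hm).1⟩
    rw [← minPer hc k]
    exact hc.1 k
  have h1 := Pool.Agent.W586.RESMK.mk_of_good hd hu hG
  have h2 : n = fun k => Function.minimalPeriod (sp (fam u)) ((p k : ℂ) : OnePoint ℂ) := by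
    funext k
    exact minPer hc k
  rwa [← h2] at h1

/-- Points attracted by marked cycles enter the marked discs. -/
theorem inC_of_to (hd : 2 ≤ d) {u : Fin (2 * d) → ℂ} (hu : u ∈ U₀ d) {p : Fin s → ℂ}
    {S : Sys d (2 * d + s) s} {q : Fin (2 * d + s) → ℂ} (hext : Ext S) (hper : S.per = n)
    (hq : q ∈ S.U) (hxq : xp q = u) (hb : ∀ k, S.b k q = p k) (ζ : ℂ)
    (hζ : To (sp (fam u)) s n (fun k => ((p k : ℂ) : OnePoint ℂ)) (ζ : OnePoint ℂ)) :
    ∃ k, ∃ m : ℕ, S.InC k q ((S.F q)^[m] (ζ, 1)) := by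
  have hnd : ND (fam u) := hu.1
  obtain ⟨hfc, hit, hcr, hhc, hprc⟩ := Pool.Agent.H790R3.RB.SP d (fam u) (by omega) hnd
  obtain ⟨k, m, h1⟩ := hζ
  have hnb : ((↑) : ℂ → OnePoint ℂ) '' (ball (p k) (S.r₀ k)) ∈ 𝓝 ((p k : ℂ) : OnePoint ℂ) := by
    apply (OnePoint.isOpen_image_coe.mpr isOpen_ball).mem_nhds
    exact ⟨p k, mem_ball_self (S.hr₀ k), rfl⟩
  obtain ⟨j, hj⟩ := (h1.eventually hnb).exists
  rw [← Function.iterate_add_apply] at hj
  rw [← Pool.Agent.W586.RESMK.pr_one, hit _ Pool.Agent.W586.RESMK.one_ne] at hj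
  set M := n k * j + m with hM
  have hFne : (hF (fam u))^[M] (ζ, 1) ≠ 0 := hnd.iter_ne M Pool.Agent.W586.RESMK.one_ne
  obtain ⟨z, hz, hzj⟩ := hj
  rw [← Pool.Agent.W586.RESMK.pr_one z] at hzj
  have h4 : cr ((hF (fam u))^[M] (ζ, 1)) (z, 1) = 0 :=
    (hcr _ _ hFne Pool.Agent.W586.RESMK.one_ne).mp hzj.symm
  obtain ⟨a', ha', h5⟩ :=
    (Pool.Agent.H790R3.RB.cr_eq_zero_iff hFne Pool.Agent.W586.RESMK.one_ne).mp h4
  refine ⟨k, M, a', z - p k, ha', by simpa [dist_eq_norm] using hz, ?_⟩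
  show (hF (S.co q))^[M] (ζ, 1) = a' • ((S.b k q + (z - p k), 1) : ℂ × ℂ)
  rw [hext.co q hq, hxq, h5, hb k]
  simp

theorem cht_zero (S : Sys d (2 * d + s) s) (k : Fin s) (x : Fin (2 * d + s) → ℂ) :
    pr (S.cht k x 0) = ((S.b k x : ℂ) : OnePoint ℂ) := by
  rw [Pool.Agent.W440.RE.TOP.pr_some, add_zero]

/-- The marked points form a family of chosen cycles. -/
theorem cyc_of_sys (S : Sys d (2 * d + s) s) {x : Fin (2 * d + s) → ℂ} (hx : x ∈ S.U) :
    Cyc (sp (S.co x)) s S.per (fun k => ((S.b k x : ℂ) : OnePoint ℂ)) := by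
  have hd : 1 ≤ d := le_trans (by norm_num) S.hd
  have hnd := S.nd x hx
  obtain ⟨hcont, hf, hcr, -⟩ := Pool.Agent.H790R3.RB.SP d (S.co x) hd hnd
  refine ⟨fun k => ?_, fun k k' m hm => ?_⟩
  · have := Pool.Agent.Helper38.AM.sink_marked S hx k
    rwa [cht_zero] at this
  · have e : ∀ k, ((S.b k x : ℂ) : OnePoint ℂ) = pr ((S.b k x, 1) : ℂ × ℂ) := fun k =>
      (Pool.Agent.W586.RESMK.pr_one _).symm
    simp only [e] at hm
    rw [hf _ Pool.Agent.W586.RESMK.one_ne m] at hm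
    have h1 := (hcr _ _ (hnd.iter_ne m Pool.Agent.W586.RESMK.one_ne)
      Pool.Agent.W586.RESMK.one_ne).mp hm
    obtain ⟨a, ha⟩ := Pool.Agent.W757.RD.SEL.par_of_cr h1
    exact S.sep x hx k k' 0 0 a m (by simpa using S.hr₀ k) (by simpa using S.hr₀ k')
      (by simpa using ha)

/-- Points which enter the marked discs are attracted by the marked cycles. -/
theorem to_of_inC (S : Sys d (2 * d + s) s) {x : Fin (2 * d + s) → ℂ} (hx : x ∈ S.U) {k : Fin s}
    {m : ℕ} {p : ℂ × ℂ} (hp : p ≠ 0) (h : S.InC k x ((S.F x)^[m] p)) :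
    To (sp (S.co x)) s S.per (fun k => ((S.b k x : ℂ) : OnePoint ℂ)) (pr p) := by
  have hd : 1 ≤ d := le_trans (by norm_num) S.hd
  obtain ⟨hcont, hf, -, -, hprc⟩ := Pool.Agent.H790R3.RB.SP d (S.co x) hd (S.nd x hx)
  obtain ⟨a, z, ha, hz, hm⟩ := h
  have hm' : (hF (S.co x))^[m] p = a • S.cht k x z := hm
  refine ⟨k, m, ?_⟩
  rw [hf p hp m, hm', Pool.Agent.W440.RE.TOP.pr_smul ha]
  have h1 := Pool.Agent.W440.RE.TOP.tend_chart S hx k hf hprc (pr (S.cht k x z)) ⟨z, hz, rfl⟩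
  rwa [cht_zero] at h1

/-- All critical points are attracted by the marked cycles. -/
theorem allTo_of_inC (S : Sys d (2 * d + s) s) {x : Fin (2 * d + s) → ℂ} (hx : x ∈ S.U)
    (hcrit : ∀ c : ℂ × ℂ, c ≠ 0 → wr (S.co x) c = 0 →
      ∃ k, ∃ m : ℕ, S.InC k x ((S.F x)^[m] c)) :
    AllTo (sp (S.co x)) s S.per (fun k => ((S.b k x : ℂ) : OnePoint ℂ)) := by
  intro c hcr
  have hd : 1 ≤ d := le_trans (by norm_num) S.hd
  obtain ⟨hcont, hf, -, hhc, hprc⟩ := Pool.Agent.H790R3.RB.SP d (S.co x) hd (S.nd x hx)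
  obtain ⟨e1, e2⟩ := hhc c
  have hwr : wr (S.co x) (hc c) = 0 := by
    by_contra hne
    obtain ⟨U, hU, hinj⟩ := Pool.Agent.H790R3.RB.INJL Pool.Agent.H790R3.RB.SP
      Pool.Agent.H790R3.RB.WR d (S.co x) (hc c) S.hd (S.nd x hx) e2 hne
    rw [e1] at hU
    exact hcr ⟨U, hU, hinj⟩
  obtain ⟨k, m, h⟩ := hcrit (hc c) e2 hwr
  have h1 := to_of_inC S hx e2 h
  rwa [e1] at h1

end marks

/-- A map all of whose critical points are attracted by chosen cycles is hyperbolic. -/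
theorem hyp_of_allTo (hf : Continuous f) (hc : Cyc f s n a) (h : AllTo f s n a) : HypTop f := by
  intro c hcr
  obtain ⟨k, m, ht⟩ := h c hcr
  obtain ⟨U, hU, hUt⟩ := sink_nhds (hc.1 k)
  have hP1 : 1 ≤ n k := (hc.1 k).1
  have hbfix : f^[n k] (a k) = a k := (hc.1 k).2.1
  have hbfix' : ∀ j : ℕ, f^[n k * j] (a k) = a k := by
    intro j
    rw [Function.iterate_mul]
    exact Function.iterate_fixed hbfix j
  have hatt : ∀ w : OnePoint ℂ, Tendsto (fun j : ℕ => f^[n k * j] (f^[m] w)) atTop (𝓝 (a k)) →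
      Tendsto (fun j : ℕ => f^[n k * j] w) atTop (𝓝 (f^[m * (n k - 1)] (a k))) := by
    intro w h1
    have h2 : Tendsto (fun j : ℕ => f^[m * (n k - 1)] (f^[n k * j] (f^[m] w))) atTop
        (𝓝 (f^[m * (n k - 1)] (a k))) := ((hf.iterate _).tendsto _).comp h1
    have h3 : Tendsto (fun j : ℕ => j - m) atTop atTop := tendsto_sub_atTop_nat m
    refine (h2.comp h3).congr' ?_
    filter_upwards [eventually_ge_atTop m] with j hj
    show f^[m * (n k - 1)] (f^[n k * (j - m)] (f^[m] w)) = f^[n k * j] w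
    rw [← Function.iterate_add_apply, ← Function.iterate_add_apply]
    congr 1
    obtain ⟨i, rfl⟩ := Nat.exists_eq_add_of_le hj
    obtain ⟨Q, hQ⟩ := Nat.exists_eq_add_of_le hP1
    rw [hQ, Nat.add_sub_cancel_left, Nat.add_sub_cancel_left]
    ring
  refine ⟨f^[m * (n k - 1)] (a k), n k, hP1, ?_, ⟨f^[m] ⁻¹' U, ?_, fun w hw => hatt w (hUt _ hw)⟩,
    hatt c ht⟩
  · rw [← Function.iterate_add_apply, add_comm, Function.iterate_add_apply, hbfix]
  · refine (hf.iterate m).continuousAt.preimage_mem_nhds ?_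
    have h1 : f^[m] (f^[m * (n k - 1)] (a k)) = a k := by
      rw [← Function.iterate_add_apply]
      have h2 : m + m * (n k - 1) = n k * m := by
        obtain ⟨Q, hQ⟩ := Nat.exists_eq_add_of_le hP1
        rw [hQ, Nat.add_sub_cancel_left]
        ring
      rw [h2, hbfix']
    rw [h1]
    exact hU

end Pool.Agent.Helper38.BD
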