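import Mathlib
import Pool.Agent.Helper38.BD.Sph

/-! The distance to the maps all of whose critical points are attracted by chosen cycles, in the
universal family. -/

set_option autoImplicit false
set_option linter.unusedVariables false

open Topology Filter Metric Set MeasureTheory
open Pool.Agent.H790R3.RB (CV hF cr ND wr rt Ix yx yc sp HypTop Attd Sink)
open Pool.Agent.W757.RD Pool.Agent.W757.RD.SEL
open scoped OnePoint

namespace Pool.Agent.Helper38.BD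

/-- Good configurations near a map with chosen cycles which attract the base points. -/
theorem START (β : ℝ) (d : ℕ) (u₁ : Fin (2 * d) → ℂ) (hβ1 : 1 / 2 < β) (hβ2 : β < 1) (hd : 2 ≤ d)
    (hu₁ : u₁ ∈ U₀ d) (s : ℕ) (per : Fin s → ℕ) (p : Fin s → ℂ)
    (hcyc : Cyc (sp (fam u₁)) s per (fun k => ((p k : ℂ) : OnePoint ℂ)))
    (hatt : ∀ j : Fin 2, To (sp (fam u₁)) s per (fun k => ((p k : ℂ) : OnePoint ℂ))
      ((bz j : ℂ) : OnePoint ℂ)) (ε : ℝ) (hε : 0 < ε) :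
    ∃ (S : Sys d (2 * d + s) s)
      (KK : Fin s → (Fin (2 * d + s) → ℂ) × (ℂ × ℂ) → ℂ) (ks : Pt d → Fin s) (ls : Pt d → ℕ)
      (y : Ix d (2 * d + s) s → ℂ),
      Ext S ∧ S.Koe KK ∧ S.per = per ∧ ‖xp (yx y) - u₁‖ < ε ∧
      mu β (S.KS (yx y)) ≤ mu β {ζ : ℂ | ¬ To (sp (fam u₁)) s per
        (fun k => ((p k : ℂ) : OnePoint ℂ)) (ζ : OnePoint ℂ)} + ENNReal.ofReal ε ∧
      Goodc S KK (ee S) {Sum.inr 0, Sum.inr 1} ks ls 0 y := by
  have hMk := mk_of_cyc hd hu₁ hcyc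
  obtain ⟨hU₀, -⟩ := p_FM d hd
  obtain ⟨ρ, hρ, hBU⟩ := Metric.nhds_basis_closedBall.mem_iff.1 (hU₀.mem_nhds hu₁)
  obtain ⟨S, q₀, hExt, hper, hq₀U, hxp, hbp, hb, -⟩ := p_MARK d (closedBall u₁ ρ) hd
    (isCompact_closedBall _ _) hBU u₁ (mem_closedBall_self hρ.le) s per p hMk
  have hKS' := inC_of_to hd hu₁ hExt hper hq₀U hxp hb
  obtain ⟨σ, N₀, hσ, hUSC'⟩ := p_USC β d (2 * d + s) s S q₀ hβ1 hβ2 hq₀U ε hε
  choose kj mj hkm using fun j : Fin 2 => hKS' (bz j) (hatt j)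
  -- the base points enter the discs for all nearby parameters
  have hev : ∀ᶠ q in 𝓝 q₀, q ∈ S.U ∧ ∀ j : Fin 2, S.InC (kj j) q ((S.F q)^[mj j] (bz j, 1)) := by
    refine Filter.Eventually.and (S.hU.mem_nhds hq₀U) (eventually_all.2 fun j => ?_)
    have h1 := Pool.Agent.W757.RD.KOE.ev_inC S (kj j) (mj j) (q := (q₀, (bz j, 1))) hq₀U (hkm j)
    have h2 : Tendsto (fun q : Fin (2 * d + s) → ℂ => (q, ((bz j, 1) : ℂ × ℂ))) (𝓝 q₀)
        (𝓝 (q₀, (bz j, 1))) := (Continuous.prodMk continuous_id continuous_const).tendsto _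
    exact h2.eventually h1
  obtain ⟨σ', hσ', hball⟩ := Metric.eventually_nhds_iff.1 hev
  have hq1 : 1 ≤ ∏ k : Fin s, S.per k := Finset.one_le_prod' fun k _ => S.hper k
  have hdvd : ∀ k, S.per k ∣ ∏ k : Fin s, S.per k :=
    fun k => Finset.dvd_prod_of_mem S.per (Finset.mem_univ k)
  have hε' : 0 < min ε (min σ σ') := lt_min hε (lt_min hσ hσ')
  obtain ⟨x₂, hx₂, hw, ⟨c, hc, hfac⟩, hncr⟩ := p_GENX d u₁ _ hd hq1 _ hε'
  set q₂ : Fin (2 * d + s) → ℂ := Fin.append x₂ p with hq₂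
  have hxp₂ : Pool.Agent.W757.RD.xp q₂ = x₂ := by
    funext i
    simp [Pool.Agent.W757.RD.xp, hq₂]
  have hd₂ : ‖q₂ - q₀‖ < min ε (min σ σ') := by
    rw [pi_norm_lt_iff hε']
    intro i
    rw [Pi.sub_apply]
    refine Fin.addCases (fun i => ?_) (fun k => ?_) i
    · have h1 : q₂ (Fin.castAdd s i) = x₂ i := by simp [hq₂]
      have h2 : q₀ (Fin.castAdd s i) = u₁ i := congrFun hxp i
      rw [h1, h2]
      exact lt_of_le_of_lt (norm_le_pi_norm (x₂ - u₁) i) hx₂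
    · have h1 : q₂ (Fin.natAdd (2 * d) k) = p k := by simp [hq₂]
      have h2 : q₀ (Fin.natAdd (2 * d) k) = p k := hbp k
      rw [h1, h2, sub_self, norm_zero]
      exact hε'
  obtain ⟨hq₂U, hIn⟩ := hball (y := q₂) (by
    rw [dist_eq_norm]
    exact hd₂.trans_le ((min_le_right _ _).trans (min_le_right _ _)))
  have hco : S.co q₂ = Pool.Agent.W757.RD.fam x₂ := by rw [hExt.co q₂ hq₂U, hxp₂]
  have hlam : ∀ k, S.lam k q₂ ≠ 0 :=
    p_LNE d (2 * d + s) s S _ q₂ hq₂U hdvd hq1 (by rw [hco]; exact hncr)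
  obtain ⟨KK, hKK⟩ := p_KOE d (2 * d + s) s S
  let y : Ix d (2 * d + s) s → ℂ := Sum.elim q₂ (Sum.elim c (fun _ => 1))
  have hyx : yx y = q₂ := rfl
  have hyc : yc y = c := rfl
  have hys : ∀ k, ys y k ≠ 0 := fun k => one_ne_zero
  let ks : Pt d → Fin s := Sum.elim (fun _ => kj 0) kj
  let ls : Pt d → ℕ := Sum.elim (fun _ => 0) (fun j => mj j % S.per (kj j))
  refine ⟨S, KK, ks, ls, y, hExt, hKK, hper, ?_, ?_, ?_⟩
  · rw [hyx, hxp₂]
    exact hx₂.trans_le (min_le_left _ _)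
  · rw [hyx]
    have h1 : S.KS q₂ ⊆ {ζ : ℂ | ∀ k, ∀ m ≤ N₀, ¬ S.InC k q₂ ((S.F q₂)^[m] (ζ, 1))} :=
      fun ζ hζ k m _ => hζ k m
    refine (measure_mono h1).trans ((hUSC' q₂ hq₂U ?_).trans ?_)
    · exact hd₂.trans_le ((min_le_right _ _).trans (min_le_left _ _))
    · refine add_le_add (measure_mono ?_) le_rfl
      intro ζ hζ hA
      obtain ⟨k, m, hkm'⟩ := hKS' ζ hA
      exact hζ k m hkm'
  · have hatt2 : ∀ j : Fin 2, ls (Sum.inr j) < S.per (ks (Sum.inr j)) ∧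
        (yx y, (S.F (yx y))^[ls (Sum.inr j)] (pc y (Sum.inr j), 1)) ∈ S.Dom (ks (Sum.inr j)) := by
      intro j
      refine ⟨Nat.mod_lt _ (S.hper _), hq₂U, hlam _, mj j / S.per (kj j), ?_⟩
      have h1 : (S.F q₂)^[S.per (kj j) * (mj j / S.per (kj j))]
          ((S.F q₂)^[mj j % S.per (kj j)] (bz j, 1)) = (S.F q₂)^[mj j] (bz j, 1) := by
        rw [← Function.iterate_add_apply, Nat.div_add_mod]
      have h2 := hIn j
      rw [← h1] at h2
      exact h2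
    refine ⟨⟨hq₂U, hlam, hys, ?_, ?_, ?_⟩, ?_⟩
    · intro j
      unfold Pool.Agent.W757.RD.Sys.Er
      rw [hyx, hyc, hco, hfac, sub_self]
    · intro i hi
      rcases Finset.mem_insert.1 hi with rfl | hi
      · exact (hatt2 0).1
      · rw [Finset.mem_singleton.1 hi]
        exact (hatt2 1).1
    · intro i hi
      rcases Finset.mem_insert.1 hi with rfl | hi
      · exact (hatt2 0).2
      · rw [Finset.mem_singleton.1 hi]
        exact (hatt2 1).2
    · obtain ⟨col, hcol⟩ := p_EMIN d (2 * d + s) s S y hq₂U hc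
      refine ⟨Fin.elim0, Sum.elim col Fin.elim0, ?_⟩
      have hM : S.Mx KK (Pool.Agent.W757.RD.ee S) {Sum.inr 0, Sum.inr 1} ks ls (R := 0) Fin.elim0
          (Sum.elim col Fin.elim0) y =
          (Matrix.of fun j c : Fin (2 * d - 2) =>
            fderiv ℂ (S.Er j) y (Pi.single (col c) 1)).submatrix
            (Equiv.sumEmpty (Fin (2 * d - 2)) (Fin 0)) (Equiv.sumEmpty (Fin (2 * d - 2)) (Fin 0)) := by
        ext a b
        rcases a with a | a
        · rcases b with b | b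
          · rfl
          · exact b.elim0
        · exact a.elim0
      rw [hM, Matrix.det_submatrix_equiv_self]
      exact hcol

/-- configurations with potential at least `j` and given periods -/
def Cf (d : ℕ) (β : ℝ) (s : ℕ) (per : Fin s → ℕ) (u₁ : Fin (2 * d) → ℂ) (j : ℕ) (x b : ℝ) :
    Prop :=
  ∃ (S : Sys d (2 * d + s) s) (KK : Fin s → (Fin (2 * d + s) → ℂ) × (ℂ × ℂ) → ℂ)
    (A : Finset (Pt d)) (ks : Pt d → Fin s)
    (ls : Pt d → ℕ) (R : ℕ) (y : Ix d (2 * d + s) s → ℂ), Ext S ∧ S.Koe KK ∧ S.per = per ∧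
    ‖xp (yx y) - u₁‖ ≤ x ∧ mu β (S.KS (yx y)) ≤ ENNReal.ofReal b ∧
    Sum.inr 0 ∈ A ∧ Sum.inr 1 ∈ A ∧
    Goodc S KK (ee S) A ks ls R y ∧ (A.card = 2 * d ∨ j ≤ A.card * (6 * d) + R)

/-- The distance to the maps all of whose critical points are attracted by cycles of given
periods, in the universal family. -/
theorem SEL' (β : ℝ) (d : ℕ) (u₀ : Fin (2 * d) → ℂ) (hβ : 1 / 2 < β) (hβ1 : β < 1) (hd : 2 ≤ d)
    (hu₀ : u₀ ∈ U₀ d) (hGz : Gz (fam u₀)) : ∃ C₂ ε₂ σ₂ : ℝ, 0 < C₂ ∧ 0 < ε₂ ∧ 0 < σ₂ ∧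
    ∀ u₁ : Fin (2 * d) → ℂ, ‖u₁ - u₀‖ < σ₂ → ∀ (s : ℕ) (per : Fin s → ℕ) (p : Fin s → ℂ),
      Cyc (sp (fam u₁)) s per (fun k => ((p k : ℂ) : OnePoint ℂ)) →
      (∀ j : Fin 2, To (sp (fam u₁)) s per (fun k => ((p k : ℂ) : OnePoint ℂ))
        ((bz j : ℂ) : OnePoint ℂ)) →
      ∀ a : ℝ, 0 ≤ a → a < ε₂ →
      mu β {ζ : ℂ | ¬ To (sp (fam u₁)) s per (fun k => ((p k : ℂ) : OnePoint ℂ))
        (ζ : OnePoint ℂ)} ≤ ENNReal.ofReal a →
      ∀ η : ℝ, 0 < η → ∃ u : Fin (2 * d) → ℂ, ‖u - u₁‖ ≤ C₂ * Real.sqrt a + η ∧ u ∈ U₀ d ∧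
        ∃ p' : Fin s → ℂ, Cyc (sp (fam u)) s per (fun k => ((p' k : ℂ) : OnePoint ℂ)) ∧
          AllTo (sp (fam u)) s per (fun k => ((p' k : ℂ) : OnePoint ℂ)) := by
  classical
  obtain ⟨C₁, ε₁, σ₁, hC₁, hε₁, hσ₁, hBU, hmin⟩ := p_MINP β d u₀ hβ hβ1 hd hu₀ hGz
  -- one step
  have hstep : ∀ (s : ℕ) (per : Fin s → ℕ) (u₁ : Fin (2 * d) → ℂ) (j : ℕ) (x b : ℝ), 0 ≤ b →
      b < ε₁ → x + ‖u₁ - u₀‖ < σ₁ / 2 → Cf d β s per u₁ j x b → ∀ η : ℝ, 0 < η →
      Cf d β s per u₁ (j + 1) (x + (C₁ * Real.sqrt b + η)) (b + η) := by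
    rintro s per u₁ j x b hb hbε hx ⟨S, KK, A, ks, ls, R, y, h1, h2, hSp, h3, h4, hA0, hA1, h5,
      h6⟩ η hη
    have hsq : 0 ≤ C₁ * Real.sqrt b := mul_nonneg hC₁.le (Real.sqrt_nonneg _)
    by_cases hcard : A.card = 2 * d
    · refine ⟨S, KK, A, ks, ls, R, y, h1, h2, hSp, by linarith, ?_, hA0, hA1, h5, Or.inl hcard⟩
      exact h4.trans (ENNReal.ofReal_le_ofReal (by linarith))
    have hlt : A.card < 2 * d := lt_of_le_of_ne (card_le hd A) hcard
    have hj : j ≤ A.card * (6 * d) + R := h6.resolve_left hcard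
    have hq : yx y ∈ S.U := h5.1.xU
    have hMk := mk_of p_LAM h1 hq
    have hdist : ‖xp (yx y) - u₀‖ < σ₁ / 2 := by
      have : xp (yx y) - u₀ = (xp (yx y) - u₁) + (u₁ - u₀) := by abel
      rw [this]
      exact lt_of_le_of_lt (norm_add_le _ _) (by linarith)
    obtain ⟨S', q₀, g1, g2, g3, g4, g5, g6, g7⟩ := p_MARK d (closedBall u₀ σ₁) hd
      (isCompact_closedBall _ _) hBU (xp (yx y)) (by
        rw [mem_closedBall, dist_eq_norm]
        linarith) s S.per _ hMk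
    obtain ⟨KK', hKK'⟩ := p_KOE d (2 * d + s) s S'
    let y' : Ix d (2 * d + s) s → ℂ := Sum.elim q₀ (Sum.elim (yc y) (fun k => ys y k))
    have hyx : yx y' = q₀ := rfl
    have hyc : yc y = yc y' := rfl
    have hyk : ys y = ys y' := rfl
    obtain ⟨t1, t2, t3⟩ := p_TRF d s S S' h1 g1 g2.symm (yx y) q₀ hq g3 g4.symm
      (fun k => (g6 k).symm)
    have hG' := t3 KK KK' A ks ls R y y' h2 hKK' rfl rfl hyc hyk h5
    obtain ⟨A', ks', ls', z, z1, z2, z3, z3', z4⟩ := hmin s S' KK' A ks ls R y' g1 hKK'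
      (fun k => by rw [hyx, g6, g5]) (by
        rw [hyx]
        exact g7) (by
        rw [hyx, g4]
        exact hdist) b hb hbε (by
        rw [hyx, ← t1]
        exact h4) hG' hA0 hA1 hlt η hη
    have hz : ‖xp (yx z) - u₁‖ ≤ x + (C₁ * Real.sqrt b + η) := by
      rw [hyx, g4] at z1
      have : xp (yx z) - u₁ = (xp (yx y) - u₁) + (xp (yx z) - xp (yx y)) := by abel
      rw [this]
      exact (norm_add_le _ _).trans (by linarith)
    have hRle := R_le h5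
    have hsle := s_le p_NUM p_ER h5
    rcases z4 with ⟨z5, z6⟩ | ⟨z5, z6⟩
    · refine ⟨S', KK', A', ks', ls', 0, z, g1, hKK', g2.trans hSp, hz, z2, z3, z3', z6, Or.inr ?_⟩
      have h7 : (A.card + 1) * (6 * d) ≤ A'.card * (6 * d) := Nat.mul_le_mul_right _ z5
      have h8 : (A.card + 1) * (6 * d) = A.card * (6 * d) + 6 * d := by ring
      omega
    · refine ⟨S', KK', A', ks', ls', R + 1, z, g1, hKK', g2.trans hSp, hz, z2, z3, z3', z6, Or.inr ?_⟩
      rw [z5]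
      omega
  -- constants
  set T : ℕ := 2 * d * (6 * d) + 6 * d with hT
  have hT0 : (0 : ℝ) ≤ (T : ℝ) := Nat.cast_nonneg _
  set M : ℝ := T * C₁ with hM
  have hM0 : 0 ≤ M := mul_nonneg hT0 hC₁.le
  set ρ : ℝ := σ₁ / (8 * (M + 1)) with hρ
  have hρ0 : 0 < ρ := by positivity
  have hMρ : M * ρ < σ₁ / 8 := by
    have h1 : (M + 1) * ρ = σ₁ / 8 := by
      rw [hρ]; field_simp
    linarith
  refine ⟨M + 1, min (ε₁ / 2) (ρ ^ 2), σ₁ / 8, by linarith, lt_min (by linarith) (by positivity),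
    by linarith, ?_⟩
  intro u₁ hu₁ s per p hcyc hatt a ha0 ha hmu η hη
  have haε : a < ε₁ / 2 := lt_of_lt_of_le ha (min_le_left _ _)
  have haρ : Real.sqrt a < ρ := by
    rw [Real.sqrt_lt' hρ0]
    exact lt_of_lt_of_le ha (min_le_right _ _)
  have hu₁U : u₁ ∈ U₀ d := hBU (by
    rw [mem_closedBall, dist_eq_norm]
    linarith)
  -- choice of the small number
  obtain ⟨η', hη'0, hη'1, hη'2⟩ : ∃ η' : ℝ, 0 < η' ∧ (T + 1) * η' + M * Real.sqrt ((T + 1) * η') <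
      min η (σ₁ / 8) ∧ (T + 1) * η' < ε₁ / 2 := by
    have hc : Continuous fun t : ℝ => (T + 1) * t + M * Real.sqrt ((T + 1) * t) := by fun_prop
    have h1 : ∀ᶠ t : ℝ in 𝓝 0, (T + 1) * t + M * Real.sqrt ((T + 1) * t) < min η (σ₁ / 8) := by
      refine (hc.tendsto 0).eventually_lt_const ?_
      simp only [mul_zero, Real.sqrt_zero, add_zero]
      exact lt_min hη (by linarith)
    have hc2 : Continuous fun t : ℝ => ((T : ℝ) + 1) * t := by fun_prop
    have h2 : ∀ᶠ t : ℝ in 𝓝 0, ((T : ℝ) + 1) * t < ε₁ / 2 := by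
      refine (hc2.tendsto 0).eventually_lt_const ?_
      simp only [mul_zero]
      linarith
    obtain ⟨t, ⟨ht1, ht2⟩, ht3⟩ := (((h1.and h2).filter_mono nhdsWithin_le_nhds).and
      (self_mem_nhdsWithin : Ioi (0 : ℝ) ∈ 𝓝[>] (0 : ℝ))).exists
    exact ⟨t, ht3, ht1, ht2⟩
  set b : ℝ := a + (T + 1) * η' with hb
  have hsqb : Real.sqrt b ≤ Real.sqrt a + Real.sqrt ((T + 1) * η') := by
    have hc0 : (0 : ℝ) ≤ (T + 1) * η' := by positivity
    rw [Real.sqrt_le_iff]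
    refine ⟨by positivity, ?_⟩
    have e1 := Real.sq_sqrt ha0
    have e2 := Real.sq_sqrt hc0
    have e3 : 0 ≤ Real.sqrt a * Real.sqrt ((T + 1) * η') := by positivity
    rw [hb]
    nlinarith
  have hMb : M * Real.sqrt b ≤ M * Real.sqrt a + M * Real.sqrt ((T + 1) * η') := by
    rw [← mul_add]
    exact mul_le_mul_of_nonneg_left hsqb hM0
  have hMa : M * Real.sqrt a ≤ M * ρ := mul_le_mul_of_nonneg_left haρ.le hM0
  have hη'3 := lt_of_lt_of_le hη'1 (min_le_left _ _)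
  have hη'4 := lt_of_lt_of_le hη'1 (min_le_right _ _)
  -- the induction
  have hind : ∀ j : ℕ, j ≤ T → Cf d β s per u₁ j ((j + 1) * η' + j * (C₁ * Real.sqrt b))
      (a + (j + 1) * η') := by
    intro j
    induction j with
    | zero =>
      intro _
      obtain ⟨S, KK, ks, ls, y, h1, h2, hSp, h3, h4, h5⟩ :=
        START β d u₁ hβ hβ1 hd hu₁U s per p hcyc hatt η' hη'0
      refine ⟨S, KK, {Sum.inr 0, Sum.inr 1}, ks, ls, 0, y, h1, h2, hSp, by simpa using h3.le, ?_,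
        by simp, by simp, h5, Or.inr (Nat.zero_le _)⟩
      refine h4.trans ?_
      refine (add_le_add_left hmu _).trans ?_
      rw [← ENNReal.ofReal_add ha0 hη'0.le]
      apply ENNReal.ofReal_le_ofReal
      simp
    | succ j ih =>
      intro hj
      have hjT : (j : ℝ) + 1 ≤ T := by exact_mod_cast hj
      have hj0 : (0 : ℝ) ≤ j := Nat.cast_nonneg _
      have hCf := ih (by omega)
      have hbj : a + (j + 1) * η' ≤ b := by
        rw [hb]
        have : ((j : ℝ) + 1) * η' ≤ (T + 1) * η' :=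
          mul_le_mul_of_nonneg_right (by linarith) hη'0.le
        linarith
      have hsb : 0 ≤ C₁ * Real.sqrt b := mul_nonneg hC₁.le (Real.sqrt_nonneg _)
      have h7 := hstep s per u₁ j _ _ (by positivity) (by linarith) (by
        have e1 : ((j : ℝ) + 1) * η' ≤ (T + 1) * η' :=
          mul_le_mul_of_nonneg_right (by linarith) hη'0.le
        have e2 : (j : ℝ) * (C₁ * Real.sqrt b) ≤ T * (C₁ * Real.sqrt b) :=
          mul_le_mul_of_nonneg_right (by linarith) hsb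
        have e3 : (T : ℝ) * (C₁ * Real.sqrt b) = M * Real.sqrt b := by rw [hM]; ring
        linarith) hCf η' hη'0
      obtain ⟨S, KK, A, ks, ls, R, y, h1, h2, hSp, h3, h4, h5⟩ := h7
      refine ⟨S, KK, A, ks, ls, R, y, h1, h2, hSp, h3.trans ?_, h4.trans ?_, h5⟩
      · have e1 : C₁ * Real.sqrt (a + (j + 1) * η') ≤ C₁ * Real.sqrt b :=
          mul_le_mul_of_nonneg_left (Real.sqrt_le_sqrt hbj) hC₁.le
        push_cast
        linarith
      · apply ENNReal.ofReal_le_ofReal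
        push_cast
        linarith
  obtain ⟨S, KK, A, ks, ls, R, y, h1, h2, hSp, h3, h4, hA0, hA1, h5, h6⟩ := hind T le_rfl
  have hcard : A.card = 2 * d := by
    by_contra hcard
    have h7 := h6.resolve_left hcard
    have hRle := R_le h5
    have hsle := s_le p_NUM p_ER h5
    have hlt : A.card + 1 ≤ 2 * d := by
      have := card_le hd A
      omega
    have h8 : (A.card + 1) * (6 * d) ≤ (2 * d) * (6 * d) := Nat.mul_le_mul_right _ hlt
    have h9 : (A.card + 1) * (6 * d) = A.card * (6 * d) + 6 * d := by ring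
    omega
  have hA : A = Finset.univ := by
    apply Finset.eq_univ_of_card
    rw [hcard]
    simp only [Fintype.card_sum, Fintype.card_fin]
    omega
  subst hA
  have hq : yx y ∈ S.U := h5.1.xU
  have hc1 := cyc_of_sys S hq
  have hc2 := allTo_of_inC S hq (p_ALLC d (2 * d + s) s S ks ls y h5.1)
  rw [h1.co _ hq, hSp] at hc1 hc2
  refine ⟨xp (yx y), ?_, h1.U _ hq, fun k => S.b k (yx y), hc1, hc2⟩
  refine h3.trans ?_
  have e3 : (T : ℝ) * (C₁ * Real.sqrt b) = M * Real.sqrt b := by rw [hM]; ring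
  have := Real.sqrt_nonneg a
  linarith

end Pool.Agent.Helper38.BD
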