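import Mathlib
import Pool.Agent.Helper38.BD.Sel

/-! Normalisation, and the local bound of the distance to the maps all of whose critical points are
attracted by cycles of given periods. -/

set_option autoImplicit false
set_option linter.unusedVariables false

open Topology Filter Metric Set MeasureTheory
open Pool.Agent.H790R3.RB (CV hF cr ND wr rt sp pr hc HypTop Attd Sink hF_contDiff)
open Pool.Agent.W324.RQOPA (ph ph_open ph_cont sp_ph exists_chart)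
open Pool.Agent.H790R3.RB.FAM (cp cp_ne cp_cont zb)
open Pool.Agent.W757.RD
open scoped OnePoint

namespace Pool.Agent.Helper38.BD

/-- normalisation -/
theorem NORM' (β : ℝ) (d : ℕ) (x₀ : CV d) (q₀ : OnePoint ℂ) (hβ : 1 / 2 < β) (hβ1 : β < 1)
    (hd : 2 ≤ d) (hx₀ : ND x₀) (hq₀ : sp x₀ q₀ = q₀) (hw₀ : wr x₀ (hc q₀) ≠ 0) :
    ∃ u₀ : Fin (2 * d) → ℂ, u₀ ∈ U₀ d ∧ Gz (fam u₀) ∧
      ∀ ε : ℝ, 0 < ε → ∃ C B δ : ℝ, 0 < C ∧ 0 < B ∧ 0 < δ ∧ ∃ V ∈ 𝓝 q₀, ∀ x : CV d,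
        ‖x - x₀‖ < δ → ∀ q ∈ V, sp x q = q → (∀ p : ℕ, ¬ Sink (sp x) p q) →
        ∀ (s : ℕ) (n : Fin s → ℕ) (b : Fin s → OnePoint ℂ), Cyc (sp x) s n b → ∀ a : ℝ, 0 < a →
        a < δ → sar {z : ℂ | ¬ To (sp x) s n b (z : OnePoint ℂ)} ≤ ENNReal.ofReal a →
        ∃ u₁ : Fin (2 * d) → ℂ, ‖u₁ - u₀‖ < ε ∧ ∃ p : Fin s → ℂ,
          Cyc (sp (fam u₁)) s n (fun k => ((p k : ℂ) : OnePoint ℂ)) ∧
          (∀ j : Fin 2, To (sp (fam u₁)) s n (fun k => ((p k : ℂ) : OnePoint ℂ))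
            ((bz j : ℂ) : OnePoint ℂ)) ∧
          mu β {z : ℂ | ¬ To (sp (fam u₁)) s n (fun k => ((p k : ℂ) : OnePoint ℂ))
            (z : OnePoint ℂ)} ≤ ENNReal.ofReal (B * a ^ (2 * β - 1)) ∧
          ∀ u : Fin (2 * d) → ℂ, ‖u - u₁‖ < 1 → ND (fam u) → ∀ b' : Fin s → OnePoint ℂ,
            Cyc (sp (fam u)) s n b' → AllTo (sp (fam u)) s n b' →
            ∃ x' : CV d, ‖x' - x‖ ≤ C * ‖u - u₁‖ ∧ ND x' ∧ ∃ b'' : Fin s → OnePoint ℂ,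
              Cyc (sp x') s n b'' ∧ AllTo (sp x') s n b'' := by
  obtain ⟨b₁, b₂, u₀, hb, hb1, hb2, hu₀, hG, H⟩ := p_NM d x₀ q₀ hd hx₀ hq₀ hw₀
  refine ⟨u₀, hu₀, hG, ?_⟩
  intro ε hε
  obtain ⟨C, δ₁, hC, hδ₁, V₁, hV₁, H1⟩ := H ε hε
  obtain ⟨B, δ₂, hB, hδ₂, V₂, hV₂, H2⟩ := p_NA β q₀ b₁ b₂ hβ hβ1 hb hb1 hb2 δ₁ hδ₁
  obtain ⟨δ₃, hδ₃, hball⟩ := Metric.eventually_nhds_iff.1 (Pool.Agent.H790R3.RB.FAM.ND_open hx₀)
  refine ⟨C, B, min δ₁ (min δ₂ δ₃), hC, hB, lt_min hδ₁ (lt_min hδ₂ hδ₃), V₁ ∩ V₂,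
    inter_mem hV₁ hV₂, ?_⟩
  intro x hx q hq hfix hns s n b hcyc a ha haδ hsar
  have hxd1 : ‖x - x₀‖ < δ₁ := lt_of_lt_of_le hx (min_le_left _ _)
  have hxd3 : ‖x - x₀‖ < δ₃ := lt_of_lt_of_le hx ((min_le_right _ _).trans (min_le_right _ _))
  have had2 : a < δ₂ := lt_of_lt_of_le haδ ((min_le_right _ _).trans (min_le_left _ _))
  have hND : ND x := hball (by rw [dist_eq_norm]; exact hxd3)
  have hcont : Continuous (sp x) := (Pool.Agent.H790R3.RB.SP d x (by omega) hND).1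
  set E : Set ℂ := {z : ℂ | ¬ To (sp x) s n b (z : OnePoint ℂ)} with hE
  have hEm : MeasurableSet E := by
    have h1 : IsOpen {z : ℂ | To (sp x) s n b (z : OnePoint ℂ)} :=
      (to_open hcont hcyc).preimage OnePoint.continuous_coe
    exact h1.measurableSet.compl
  obtain ⟨a₁, a₂, ha1, ha2, ha1E, ha2E, hmu⟩ := H2 q hq.2 E hEm a ha had2 hsar
  obtain ⟨u₁, h, Q, hQ0, hQq, hh, hhq, hh1, hh2, hu, hs, hx'⟩ :=
    H1 x hxd1 q hq.1 hfix a₁ a₂ ha1 ha2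
  have hs2 : ∀ (y : CV d) (u : Fin (2 * d) → ℂ), (∀ z, h (sp y z) = sp (fam u) (h z)) →
      ∀ z, h.symm (sp (fam u) z) = sp y (h.symm z) := by
    intro y u hyu z
    apply h.injective
    rw [hyu, h.apply_symm_apply, h.apply_symm_apply]
  have hbq : ∀ k, h (b k) ≠ ∞ := by
    intro k hk
    rw [← hhq] at hk
    have := h.injective hk
    exact hns (n k) (this ▸ hcyc.1 k)
  choose p hp using fun k => OnePoint.ne_infty_iff_exists.1 (hbq k)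
  have hpe : (fun k => h (b k)) = fun k => ((p k : ℂ) : OnePoint ℂ) := by
    funext k
    exact (hp k).symm
  have hcyc1 := cyc_conj h hs hcyc
  rw [hpe] at hcyc1
  refine ⟨u₁, hu, p, hcyc1, ?_, ?_, ?_⟩
  · have e1 : To (sp x) s n b (a₁ : OnePoint ℂ) := by
      by_contra hcon
      exact ha1E hcon
    have e2 : To (sp x) s n b (a₂ : OnePoint ℂ) := by
      by_contra hcon
      exact ha2E hcon
    have f1 := to_conj h hs e1
    have f2 := to_conj h hs e2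
    rw [hh1, hpe] at f1
    rw [hh2, hpe] at f2
    intro j
    fin_cases j
    · simpa [bz] using f1
    · simpa [bz] using f2
  · have hle := hmu h Q hQ0 hQq hh
    have hsub : {z : ℂ | ¬ To (sp (fam u₁)) s n (fun k => ((p k : ℂ) : OnePoint ℂ))
        (z : OnePoint ℂ)} ⊆
        {w : ℂ | ∃ z ∈ E, h (z : OnePoint ℂ) = (w : OnePoint ℂ)} ∪
          {w : ℂ | h ∞ = (w : OnePoint ℂ)} := by
      intro w hw
      have hw1 : ¬ To (sp x) s n b (h.symm (w : OnePoint ℂ)) := by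
        intro hA
        apply hw
        have := to_conj h hs hA
        rwa [h.apply_symm_apply, hpe] at this
      rcases ne_or_eq (h.symm (w : OnePoint ℂ)) ∞ with hc | hc
      · obtain ⟨z, hz⟩ := OnePoint.ne_infty_iff_exists.1 hc
        left
        refine ⟨z, ?_, ?_⟩
        · show ¬ To (sp x) s n b (z : OnePoint ℂ)
          rw [hz]; exact hw1
        · rw [hz, h.apply_symm_apply]
      · right
        show h ∞ = (w : OnePoint ℂ)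
        rw [← hc, h.apply_symm_apply]
    have hsing : mu β {w : ℂ | h ∞ = (w : OnePoint ℂ)} = 0 := by
      rw [← (p_MU β hβ hβ1).2]
      refine Set.Subsingleton.measure_zero ?_ _
      intro w hw w' hw'
      exact OnePoint.coe_injective (hw.symm.trans hw')
    calc mu β {z : ℂ | ¬ To (sp (fam u₁)) s n (fun k => ((p k : ℂ) : OnePoint ℂ))
          (z : OnePoint ℂ)}
        ≤ mu β ({w : ℂ | ∃ z ∈ E, h (z : OnePoint ℂ) = (w : OnePoint ℂ)} ∪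
          {w : ℂ | h ∞ = (w : OnePoint ℂ)}) := measure_mono hsub
      _ ≤ mu β {w : ℂ | ∃ z ∈ E, h (z : OnePoint ℂ) = (w : OnePoint ℂ)} +
          mu β {w : ℂ | h ∞ = (w : OnePoint ℂ)} := measure_union_le _ _
      _ = mu β {w : ℂ | ∃ z ∈ E, h (z : OnePoint ℂ) = (w : OnePoint ℂ)} := by
          rw [hsing, add_zero]
      _ ≤ _ := hle
  · intro u hu1 hNDu b' hb' hall
    obtain ⟨x', hn, hND', hsx⟩ := hx' u hu1 hNDu
    exact ⟨x', hn, hND', _, cyc_conj h.symm (hs2 x' u hsx) hb',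
      allTo_conj h.symm (hs2 x' u hsx) hall⟩

/-- the local form of the statement near a fixed point -/
def Loc (γ : ℝ) (d : ℕ) (x₀ : CV d) (q₀ : OnePoint ℂ) : Prop :=
  ∃ C δ : ℝ, 0 < C ∧ 0 < δ ∧ ∃ V ∈ 𝓝 q₀, ∀ x : CV d, ‖x - x₀‖ < δ → ∀ q ∈ V, sp x q = q →
    (∀ p : ℕ, ¬ Sink (sp x) p q) → ∀ (s : ℕ) (n : Fin s → ℕ) (b : Fin s → OnePoint ℂ),
    Cyc (sp x) s n b → ∀ a : ℝ, 0 < a → a < δ →
    sar {z : ℂ | ¬ To (sp x) s n b (z : OnePoint ℂ)} ≤ ENNReal.ofReal a →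
    ∃ x' : CV d, ‖x' - x‖ ≤ C * a ^ γ ∧ ND x' ∧ ∃ b' : Fin s → OnePoint ℂ,
      Cyc (sp x') s n b' ∧ AllTo (sp x') s n b'

theorem loc_ne {γ : ℝ} {d : ℕ} (hd : 2 ≤ d) {x₀ : CV d} (hx₀ : ND x₀) {q₀ : OnePoint ℂ}
    (hne : sp x₀ q₀ ≠ q₀) : Loc γ d x₀ q₀ := by
  obtain ⟨k, β, hkβ⟩ := exists_chart q₀
  set w₀ := zb β k () with hw₀
  have h0 : hF x₀ (cp k w₀) ≠ 0 := fun h => cp_ne k w₀ (hx₀ _ h)
  have c1 : Continuous (fun y : CV d × ℂ => hF y.1 (cp k y.2)) :=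
    (hF_contDiff d 1).continuous.comp (continuous_fst.prodMk
      ((cp_cont k).continuous.comp continuous_snd))
  have c2 : ContinuousAt (fun y : CV d × ℂ => pr (hF y.1 (cp k y.2))) (x₀, w₀) :=
    ContinuousAt.comp (f := fun y : CV d × ℂ => hF y.1 (cp k y.2)) (g := pr) (x := (x₀, w₀))
      (Pool.Agent.H790R3.RB.SP.continuousAt_pr h0) c1.continuousAt
  have c3 : ContinuousAt (fun y : CV d × ℂ => ph k y.2) (x₀, w₀) :=
    ((ph_cont k).comp continuous_snd).continuousAt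
  have hne' : pr (hF x₀ (cp k w₀)) ≠ ph k w₀ := by
    have h1 := sp_ph hx₀ (by omega : 1 ≤ d) k w₀ 1
    simp only [Function.iterate_one] at h1
    rw [← h1, hkβ]
    exact hne
  have h2 : ∀ᶠ y : CV d × ℂ in 𝓝 (x₀, w₀), pr (hF y.1 (cp k y.2)) ≠ ph k y.2 :=
    (ContinuousAt.ne_iff_eventually_ne c2 c3).1 hne'
  obtain ⟨δ₁, hδ₁, hb1⟩ := Metric.eventually_nhds_iff_ball.1 h2
  obtain ⟨δ₃, hδ₃, hb3⟩ := Metric.eventually_nhds_iff.1 (Pool.Agent.H790R3.RB.FAM.ND_open hx₀)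
  refine ⟨1, min δ₁ δ₃, one_pos, lt_min hδ₁ hδ₃, ph k '' ball w₀ δ₁, ?_, ?_⟩
  · rw [← hkβ]
    exact (ph_open k).image_mem_nhds (ball_mem_nhds w₀ hδ₁)
  · intro x hx q hq hfix
    exfalso
    obtain ⟨w, hw, rfl⟩ := hq
    have hND : ND x := hb3 (by rw [dist_eq_norm]; exact lt_of_lt_of_le hx (min_le_right _ _))
    have h3 := hb1 (x, w) (by
      rw [← ball_prod_same]
      exact ⟨by rw [mem_ball, dist_eq_norm]; exact lt_of_lt_of_le hx (min_le_left _ _), hw⟩)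
    have h4 := sp_ph hND (by omega : 1 ≤ d) k w 1
    simp only [Function.iterate_one] at h4
    exact h3 (h4.symm.trans hfix)

theorem loc_crit {γ : ℝ} {d : ℕ} (hd : 2 ≤ d) {x₀ : CV d} (hx₀ : ND x₀)
    {q₀ : OnePoint ℂ} (hfix : sp x₀ q₀ = q₀) (hw : wr x₀ (hc q₀) = 0) : Loc γ d x₀ q₀ := by
  obtain ⟨δ, hδ, V, hV, h⟩ := p_NAC d x₀ q₀ hd hx₀ hfix hw
  exact ⟨1, δ, one_pos, hδ, V, hV, fun x hx q hq hf hns => absurd (h x hx q hq hf) (hns 1)⟩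

theorem loc_main {γ : ℝ} (hγ : 0 < γ) (hγ2 : γ < 1 / 2) {d : ℕ}
    (hd : 2 ≤ d) {x₀ : CV d} (hx₀ : ND x₀)
    {q₀ : OnePoint ℂ} (hfix : sp x₀ q₀ = q₀) (hw : wr x₀ (hc q₀) ≠ 0) : Loc γ d x₀ q₀ := by
  obtain ⟨u₀, hu₀, hG, H⟩ := NORM' (γ + 1 / 2) d x₀ q₀ (by linarith) (by linarith) hd hx₀ hfix hw
  obtain ⟨C₂, ε₂, σ₂, hC₂, hε₂, hσ₂, H2⟩ :=
    SEL' (γ + 1 / 2) d u₀ (by linarith) (by linarith) hd hu₀ hG
  obtain ⟨C, B, δ, hC, hB, hδ, V, hV, H3⟩ := H σ₂ hσ₂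
  have hexp : 2 * (γ + 1 / 2) - 1 = γ + γ := by ring
  have hK : 0 < C₂ * Real.sqrt B + 1 := by positivity
  have e1 : ∀ᶠ a : ℝ in 𝓝 0, B * a ^ (γ + γ) < ε₂ := by
    have c : ContinuousAt (fun a : ℝ => B * a ^ (γ + γ)) 0 :=
      continuousAt_const.mul (Real.continuousAt_rpow_const 0 _ (Or.inr (by linarith)))
    have := c.tendsto.eventually_lt_const (u := ε₂)
      (by rw [Real.zero_rpow (by linarith)]; simpa using hε₂)
    exact this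
  have e2 : ∀ᶠ a : ℝ in 𝓝 0, (C₂ * Real.sqrt B + 1) * a ^ γ < 1 := by
    have c : ContinuousAt (fun a : ℝ => (C₂ * Real.sqrt B + 1) * a ^ γ) 0 :=
      continuousAt_const.mul (Real.continuousAt_rpow_const 0 _ (Or.inr hγ.le))
    have := c.tendsto.eventually_lt_const (u := (1 : ℝ))
      (by rw [Real.zero_rpow hγ.ne']; simp)
    exact this
  obtain ⟨δ', hδ', hb⟩ := Metric.eventually_nhds_iff.1 (e1.and e2)
  refine ⟨C * (C₂ * Real.sqrt B + 1), min δ δ', by positivity, lt_min hδ hδ', V, hV, ?_⟩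
  intro x hx q hq hf hns s n b hcyc a ha haδ hsar
  obtain ⟨u₁, hu₁, p, hcyc1, hatt, hmu, hback⟩ := H3 x (lt_of_lt_of_le hx (min_le_left _ _)) q hq
    hf hns s n b hcyc a ha (lt_of_lt_of_le haδ (min_le_left _ _)) hsar
  obtain ⟨hs1, hs2⟩ := hb (y := a) (by
    rw [Real.dist_eq, sub_zero, abs_of_pos ha]; exact lt_of_lt_of_le haδ (min_le_right _ _))
  rw [hexp] at hmu
  have hag : 0 < a ^ γ := Real.rpow_pos_of_pos ha _
  obtain ⟨u, hu, huU, p', hp1, hp2⟩ := H2 u₁ hu₁ s n p hcyc1 hatt (B * a ^ (γ + γ))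
    (by have := Real.rpow_nonneg ha.le (γ + γ); positivity) hs1 hmu (a ^ γ) hag
  have hsqrt : Real.sqrt (B * a ^ (γ + γ)) = Real.sqrt B * a ^ γ := by
    rw [Real.sqrt_mul hB.le, Real.rpow_add ha, Real.sqrt_mul_self hag.le]
  have hle : ‖u - u₁‖ ≤ (C₂ * Real.sqrt B + 1) * a ^ γ := by
    rw [hsqrt] at hu
    linarith
  obtain ⟨x', hx', hND', b'', hb1, hb2⟩ := hback u (lt_of_le_of_lt hle hs2) huU.1 _ hp1 hp2
  refine ⟨x', ?_, hND', b'', hb1, hb2⟩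
  calc ‖x' - x‖ ≤ C * ‖u - u₁‖ := hx'
    _ ≤ C * ((C₂ * Real.sqrt B + 1) * a ^ γ) := mul_le_mul_of_nonneg_left hle hC.le
    _ = C * (C₂ * Real.sqrt B + 1) * a ^ γ := by ring

/-- The local bound of the distance to the maps all of whose critical points are attracted by
cycles of given periods. -/
theorem SEQ' (γ : ℝ) (d : ℕ) (x₀ : CV d) (hγ : 0 < γ) (hγ2 : γ < 1 / 2) (hd : 2 ≤ d)
    (hx₀ : ND x₀) : ∃ C δ : ℝ, 0 < C ∧ 0 < δ ∧ ∀ x : CV d, ‖x - x₀‖ < δ →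
      ∀ (s : ℕ) (n : Fin s → ℕ) (b : Fin s → OnePoint ℂ), Cyc (sp x) s n b → ∀ a : ℝ, 0 < a →
      a < δ → sar {z : ℂ | ¬ To (sp x) s n b (z : OnePoint ℂ)} ≤ ENNReal.ofReal a →
      ∃ x' : CV d, ‖x' - x‖ ≤ C * a ^ γ ∧ ND x' ∧ ∃ b' : Fin s → OnePoint ℂ,
        Cyc (sp x') s n b' ∧ AllTo (sp x') s n b' := by
  have hloc : ∀ q₀ : OnePoint ℂ, Loc γ d x₀ q₀ := by
    intro q₀
    by_cases h1 : sp x₀ q₀ = q₀
    · by_cases h2 : wr x₀ (hc q₀) = 0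
      · exact loc_crit hd hx₀ h1 h2
      · exact loc_main hγ hγ2 hd hx₀ h1 h2
    · exact loc_ne hd hx₀ h1
  choose C δ hC hδ V hV H using hloc
  obtain ⟨t, -, ht⟩ := isCompact_univ.elim_nhds_subcover V (fun q _ => hV q)
  obtain ⟨δ₃, hδ₃, hb3⟩ := Metric.eventually_nhds_iff.1 (Pool.Agent.H790R3.RB.FAM.ND_open hx₀)
  obtain ⟨η, hη, hη1, hη2⟩ : ∃ η : ℝ, 0 < η ∧ η < δ₃ ∧ ∀ q ∈ t, η < δ q := by
    have e1 : ∀ᶠ η : ℝ in 𝓝[>] 0, 0 < η := eventually_mem_nhdsWithin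
    have e2 : ∀ᶠ η : ℝ in 𝓝[>] 0, η < δ₃ :=
      eventually_nhdsWithin_of_eventually_nhds (eventually_lt_nhds hδ₃)
    have e3 : ∀ᶠ η : ℝ in 𝓝[>] 0, ∀ q ∈ t, η < δ q :=
      (Finset.eventually_all t).2 fun q _ =>
        eventually_nhdsWithin_of_eventually_nhds (eventually_lt_nhds (hδ q))
    obtain ⟨η, h1, h2, h3⟩ := (e1.and (e2.and e3)).exists
    exact ⟨η, h1, h2, h3⟩
  have hS : 0 ≤ ∑ q ∈ t, C q := Finset.sum_nonneg fun q _ => (hC q).le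
  refine ⟨∑ q ∈ t, C q + 1, η, by linarith, hη, ?_⟩
  intro x hx s n b hcyc a ha haη hsar
  have hag : 0 < a ^ γ := Real.rpow_pos_of_pos ha _
  have hND : ND x := hb3 (by rw [dist_eq_norm]; exact hx.trans hη1)
  obtain ⟨q, hq, hns⟩ := p_NAF d x hd hND
  obtain ⟨q₀, hq₀, hqV⟩ := mem_iUnion₂.1 (ht (mem_univ q))
  obtain ⟨x', hx', hND', hh'⟩ := H q₀ x (hx.trans (hη2 q₀ hq₀)) q hqV hq hns s n b hcyc a ha
    (haη.trans (hη2 q₀ hq₀)) hsar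
  refine ⟨x', hx'.trans (mul_le_mul_of_nonneg_right ?_ hag.le), hND', hh'⟩
  have := Finset.single_le_sum (f := C) (fun q _ => (hC q).le) hq₀
  linarith

end Pool.Agent.Helper38.BD
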